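import Pool.Agent.Q193.LT.Cyc

/-!
# The Albanese map over `ℚ̄` and trilinear forms over `ℚ` with a block of four variables

For a smooth projective scheme `Y` over `ℚ` let `A^n(Y) = CH^n(Y_ℚ̄; ℚ)`, and let `B^n(Y)` be the image
of `A^n(Y)` in the Deligne cohomology `H^{2n}_D(Y_ℂ, ℚ(n))`. Both are additive functors of the Chow motive
of `Y`. If the dimension of `Y` is at most two, then the surjections `A^n(Y) → B^n(Y)` are isomorphisms
for all `n` if and only if the Albanese maps of the components of `Y_ℚ̄` are injective: the statement for
`n ≤ 1` is always true, for a surface the intermediate Jacobian `J^2` is the Albanese variety, and the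
kernel `F^2` of the Albanese map is torsion-free by Roitman's theorem.

For a separated scheme `X` of finite type over `ℚ` let `W(X)` be the weight complex (Gillet, Soulé; a
complex of Chow motives over `ℚ` with rational coefficients, for the cohomology with compact supports;
`W(X) = h(X)` for smooth projective `X`), and put `A^{n,i}(X) = H^i(A^n(W(X)))` and
`B^{n,i}(X) = H^i(B^n(W(X)))`. `BijAll C X` says that the maps `A^{n,i}(X) → B^{n,i}(X)` are isomorphisms
for all `n` and `i`.

Let `X` be a smooth projective variety over `ℚ̄` of dimension at least three. Every zero-cycle on `X` is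
contained in a smooth connected surface `S`, a complete intersection of ample divisors of `X`, and the
Albanese variety of `S` is the one of `X` by Lefschetz's theorem. So if the Albanese map of `S` is
injective for all surfaces `S`, it is injective for all `X`.

**Theorem.** (1) The Albanese map is injective for all smooth projective varieties over `ℚ̄`, of any
dimension, if and only if the maps `A^{n,i}(Z) → B^{n,i}(Z)` are isomorphisms for the smooth affine cubic
hypersurfaces `Z : T(x, y, z) = 1` of all trilinear forms `T` with rational coefficients such that one of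
the three blocks of variables has at most four variables (the other two blocks are arbitrary).

(2) It is enough to consider the forms `T(x, y, z)` in which `z` has exactly four variables.

(3) Unconditionally, the maps are isomorphisms if one of the blocks has at most three variables.
-/

set_option autoImplicit false

open CategoryTheory CategoryTheory.Limits AlgebraicGeometry Pool.Agent.Y116.UV Pool.Agent.Z125.UN
  Pool.Agent.Q193.LT

universe w w'

namespace Pool.Agent.Results.MP_2eeeac_ag.FourVariableBlocks

/-- The field `ℚ̄` of algebraic numbers -/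
abbrev Qb : Type := AlgebraicClosure ℚ

/-- The groups `CH_0(X)_0` and `Alb_X(ℚ̄)` and the Albanese map, for schemes `X` over `ℚ̄` (for a scheme
with several components: the sums over the components). -/
structure AlbaneseData where
  /-- the zero-cycles of degree zero on all components modulo rational equivalence -/
  CH0 : Sch Qb → ModuleCat.{w'} ℤ
  /-- the points of the Albanese varieties -/
  Alb : Sch Qb → ModuleCat.{w'} ℤ
  /-- the Albanese map -/
  alb : ∀ X, CH0 X ⟶ Alb X

/-- The Albanese map of `X` is injective, that is `F^2(X) = 0`. -/
def AlbaneseInjective (D : AlbaneseData.{w'}) (X : Sch Qb) : Prop :=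
  Function.Injective (D.alb X).hom

/-- The base change `Y_ℚ̄` of a scheme over `ℚ`. -/
noncomputable def bc (Y : Sch ℚ) : Sch Qb :=
  (Over.pullback (Spec.map (CommRingCat.ofHom (algebraMap ℚ Qb)))).obj Y

/-- What is used about the Albanese map: the reduction to surfaces explained above, the description for
schemes of dimension at most two by the maps from cycles to Deligne cohomology (with Roitman's theorem),
and the descent from `ℚ̄` to `ℚ`: every smooth projective variety over `ℚ̄` is an open and closed
subscheme of `Y_ℚ̄` for a smooth projective scheme `Y` of the same dimension over `ℚ`. -/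
structure Describes (D : AlbaneseData.{w'}) (C : PairData.{w} ℚ (ℤ × ℤ) ℚ) : Prop where
  surfaces : (∀ V : Sch Qb, SmoothProj V → AlbaneseInjective D V) ↔
    ∀ V : Sch Qb, SmoothProj V → topologicalKrullDim V.left ≤ (2 : ℕ) → AlbaneseInjective D V
  kernel : ∀ Y : Sch ℚ, SmoothProj Y → topologicalKrullDim Y.left ≤ (2 : ℕ) →
    (AlbaneseInjective D (bc Y) ↔ BijAll C Y)
  descent : ∀ n : ℕ,
    (∀ V : Sch Qb, SmoothProj V → topologicalKrullDim V.left ≤ n → AlbaneseInjective D V) ↔
      ∀ Y : Sch ℚ, SmoothProj Y → topologicalKrullDim Y.left ≤ n → AlbaneseInjective D (bc Y)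

/-- The maps are isomorphisms for all hypersurfaces `T = 1` with a block of at most `m` variables. -/
def Forms (C : PairData.{w} ℚ (ℤ × ℤ) ℚ) (m : ℕ) : Prop :=
  ∀ (a b c : ℕ) (T : Fin a → Fin b → Fin c → ℚ), (a ≤ m ∨ b ≤ m ∨ c ≤ m) → BijAll C (hypS T)

/-- **The Albanese map over `ℚ̄` and trilinear forms over `ℚ` with a block of four variables.** See the
explanations above. The hypothesis `generated` is the statement that smooth projective schemes generate,
in each dimension (Gillet and Soulé, from Hironaka's theorem). Known cases that are used: the point, and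
curves. -/
theorem result {D : AlbaneseData.{w'}} {C : PairData.{w} ℚ (ℤ × ℤ) ℚ} (h : Describes D C)
    (weight : IsWeightPair C) (generated : WeightGen C) (point : BijAll C (aff ℚ ℚ))
    (curves : ∀ V : Sch Qb, SmoothProj V → topologicalKrullDim V.left ≤ (1 : ℕ) →
      AlbaneseInjective D V) :
    ((∀ V : Sch Qb, SmoothProj V → AlbaneseInjective D V) ↔ Forms C 4) ∧
    ((∀ V : Sch Qb, SmoothProj V → AlbaneseInjective D V) ↔
      ∀ (a b : ℕ) (T : Fin a → Fin b → Fin 4 → ℚ), BijAll C (hypS T)) ∧
    Forms C 3 := by
  have e : ∀ n : ℕ, n ≤ 2 → ((∀ V : Sch Qb, SmoothProj V → topologicalKrullDim V.left ≤ n →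
      AlbaneseInjective D V) ↔ Forms C (n + 2)) := by
    intro n hn2
    have h2 : ((n : ℕ) : WithBot ℕ∞) ≤ ((2 : ℕ) : WithBot ℕ∞) := by exact_mod_cast hn2
    refine (h.descent n).trans (Iff.trans ?_ (wg_dim generated weight point n))
    exact ⟨fun g Y hY hn => (h.kernel Y hY (hn.trans h2)).mp (g Y hY hn),
      fun g Y hY hn => (h.kernel Y hY (hn.trans h2)).mpr (g Y hY hn)⟩
  have e4 : Forms C 4 ↔ ∀ (a b : ℕ) (T : Fin a → Fin b → Fin 4 → ℚ), BijAll C (hypS T) := by
    constructor
    · intro g a b T
      exact g a b 4 T (Or.inr (Or.inr le_rfl))
    · intro g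
      exact (dim_iff (bnd_pair weight point) 2).mp ((dim_tri (bnd_pair weight point) 2).mpr g)
  exact ⟨h.surfaces.trans (e 2 le_rfl), h.surfaces.trans ((e 2 le_rfl).trans e4),
    (e 1 (by norm_num)).mp curves⟩

end Pool.Agent.Results.MP_2eeeac_ag.FourVariableBlocks
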