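import Pool.Agent.Q145.NC.Alb

/-!
# The Albanese map on the zero-cycles of quotients of products of curves

`k` is an algebraically closed field of characteristic zero, for example the field of the algebraic
numbers, `C_j` (`j` in a finite set) are smooth projective curves over `k`, `X = ∏ C_j ^ (N j)` is a
product of powers of them and `G` is a finite group which acts on `X` by natural automorphisms: the
coordinates of `σ x` are of the form `a(x_(j, f(j, q)))`, where `f` is a permutation and `a` is an
automorphism of `C_j` that acts as an integer (`1` or `-1`) on the Jacobian of `C_j`: the identity,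
the hyperelliptic involution, a translation or a point reflection of an elliptic curve.

Theorem. If `H^{i,0}(X)^G = 0` for all `i ≥ 2` then the Albanese map is injective on the zero-cycles
of degree zero on `X/G` (with rational coefficients).

Here a zero-cycle on `X/G`, the push-forward of `z`, is in the kernel of the Albanese map if and only
if its pull-back `∑ σ, σ_* z` to `X` is, that is, if the pull-back is of degree zero and all its
projections to the factors `C_j` are rationally equivalent to zero.
-/

set_option autoImplicit false

namespace Pool.Agent.Results.MP_2eeeac_ag.QuotientsOfProductsOfCurves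

open FF Pool.Agent.Q70.CH Pool.Agent.Q145.NC

/-- There are no `G`-invariant holomorphic `i`-forms on `X = ∏ C_j ^ (N j)`.  A holomorphic
`i`-form on `X` is given by an alternating form `φ` on the tangent space
`⨁_j (k ^ (g j)) ^ (N j)` of the product of the Jacobians which vanishes if two arguments belong to
the same factor; the pull-back of `φ` by `σ` is its composition with the differential of `σ`. -/
def NoInvariantForms {k : Type} [Field k] [CharZero k] {J : Type} {K : J → Type}
    [∀ j, Field (K j)] [∀ j, Algebra k (K j)] (g : J → ℕ) {N : J → Type} {G : Type} [Group G]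
    (A : NAct k K N G) (i : ℕ) : Prop :=
  ∀ φ : TS k g N [⋀^Fin i]→ₗ[k] k, IsForm φ →
    (∀ σ, φ.compLinearMap (linN (A.F σ).f (A.F σ).s) = φ) → φ = 0

theorem result {k : Type} [Field k] [CharZero k] [IsAlgClosed k] {J : Type} [Finite J]
    {K : J → Type} [∀ j, Field (K j)] [∀ j, Algebra k (K j)] [∀ j, IsFF k (K j)] {g : J → ℕ}
    (hg : ∀ j, IsGenus k (K j) (g j)) {N : J → Type} [∀ j, Finite (N j)] {G : Type} [Group G]
    [Fintype G] (A : NAct k K N G) (hA : ∀ i, 2 ≤ i → NoInvariantForms g A i)
    (z : (∀ j, N j → Place k (K j)) →₀ ℚ) (hz : AlbTriv (∑ σ, z.mapDomain (A.F σ).map)) :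
    z.mapDomain A.quo ∈ A.ratQ :=
  A.albanese hg (fun i hi => hA i hi) z hz

end Pool.Agent.Results.MP_2eeeac_ag.QuotientsOfProductsOfCurves
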