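import Pool.Agent.Q72.DP.Zero

/-!
# The Albanese maps over `ℚ̄` and squares of divisors on ruled threefolds

`𝒱` is the class of smooth projective varieties over `k = ℚ̄` (or any class of smooth proper varieties
over a field `k` closed under products), `C` the Chow groups with rational coefficients (in the form of
their formal properties, `IsChowProj`), `H` a Weil cohomology theory (`IsWeilProj`; for the problem:
Betti cohomology of the complex varieties `X_ℂ`), and `N X j ⊆ CH^j(X)` the kernel of the
Abel-Jacobi map on the homologically trivial classes (`IsAbelJacobiKernel`). In particular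
`N X (dim X)` is the kernel `F²(X) ⊗ ℚ` of the Albanese map on zero-cycles of degree zero; by the
theorem of Roitman `F²(X) = 0` if and only if `F²(X) ⊗ ℚ = 0`. Two known theorems are hypotheses:
* `RankTwoBundles`: the projective bundle formula, and the theorem of Schwarzenberger: the classes of
  zero-cycles on a surface have multiples which are second Chern classes of rank two bundles with
  `c₁ = 0`; here `Bun f m c ξ` means that `f` is the projective bundle of a vector bundle of rank `m`
  with Chern classes `c`, and `ξ` is the class of `O(1)`;
* `FromSurfaces` (Bertini, Lefschetz): the classes in the Albanese kernel of a variety of dimension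
  `≥ 2` are push-forwards from Albanese kernels of surfaces.

Theorem. The following are equivalent:
* the Albanese map is injective for all varieties;
* it is so for all surfaces;
* for every surface `S`, every vector bundle of rank two on `S` with `c₁ = 0` and `c₂` in the
  Albanese kernel has `c₂ = 0`;
* for every threefold `P` which is a `ℙ¹`-bundle over a surface and every divisor `G` on `P`: if `G²`
  is in the kernel of the Abel-Jacobi map of `P` then `G² = 0` in `CH²(P)`.
-/

open CategoryTheory AlgebraicGeometry

set_option autoImplicit false

universe u v w

namespace Pool.Agent.Results.MP_2eeeac_ag.SquaresOnRuledThreefolds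

open Pool.Agent.H914 Pool.Agent.W492.BB Pool.Agent.TH133 Pool.Agent.Y148.BB Pool.Agent.Q72.DP

/-- The Albanese maps (with rational coefficients) of all varieties are injective if and only if, on
the threefolds which are `ℙ¹`-bundles over surfaces, the squares of divisors in the kernel of the
Abel-Jacobi map vanish. -/
theorem result {k : Type u} [Field k] {𝒱 : VarClass k} (C : TheoryData.{u, v, 0} 𝒱 ℚ)
    [IsChowProj C] {K : Type w} [Field K] (H : WeilTheoryData.{u, v, w} C K) [IsWeilProj H]
    (N : ∀ X : 𝒱.Obj, ℕ → Submodule ℚ (C.A X)) (hN : IsAbelJacobiKernel H N)
    (Bun : BundleClass C) (hB : RankTwoBundles Bun) (hF : FromSurfaces N) :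
    [∀ X : 𝒱.Obj, N X X.dim = ⊥, ∀ S : 𝒱.Obj, S.dim = 2 → N S 2 = ⊥,
      ∀ S : 𝒱.Obj, S.dim = 2 → RankTwoTrivial Bun S (N S 2),
      ∀ S : 𝒱.Obj, S.dim = 2 → SquaresTrivial Bun S (fun P => N P 2)].TFAE :=
  alb_tfae hB hN hF

end Pool.Agent.Results.MP_2eeeac_ag.SquaresOnRuledThreefolds
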