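import Pool.Agent.Q70.KM.SMain

/-!
# Beilinson's conjecture for zero-cycles on the symmetric square of a curve supported on the points
over a subspace of the Jacobian

Let `C` be any smooth projective curve over an algebraically closed field `k` of characteristic
zero (for example the field of algebraic numbers), and `o` a point of `C`. The symmetric square
`X = C^(2)` is a smooth projective surface; its points are the unordered pairs `{P, Q}` of points of
`C`, and its Albanese variety is the Jacobian `J` of `C`, with the Albanese map
`{P, Q} ↦ P + Q - 2 o`. Its geometric genus is `g (g - 1) / 2`, so that by Mumford's theorem the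
kernel of the Albanese map on zero-cycles is infinite-dimensional over the complex numbers, if
`g > 1`. Beilinson's conjecture says that it is zero over the algebraic numbers.

**Theorem.** Let `V` be a finite-dimensional subspace of `Pic(C) ⊗ ℚ` (more generally, a
vector space of finite dimension with a linear map `ι` to `Pic(C) ⊗ ℚ`). The zero-cycles on `X` in
the kernel of the Albanese map which are supported on the points `{P, Q}` with `P + Q - 2 o` in `V`
(`InKernel`) form a subspace of `CH_0(X) ⊗ ℚ` (`kernelSpace`) whose dimension is finite and at
most the dimension of the space of the polynomials of degree at most two on `V` that vanish at all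
the elements `P - o` of `V`, `P` a point of `C` (`Quadrics`). In particular all these zero-cycles
are rationally equivalent to zero (with rational coefficients), if only the polynomial `0` vanishes
at all these `P - o`.

For instance, let `C` and `o` be defined over a number field `F`, and let `V` be generated by
`J(F)`, a space of the dimension `r = rank J(F)`. The theorem applies to all zero-cycles on `X`
supported on `F`-rational points (pairs of `F`-rational points of `C` and pairs of conjugate
quadratic points), and on all points of `X` of which a multiple of the image in `J` is in `J(F)`.
If the points `P - o`, `P` in `C(F)`, do not lie on a quadric (not necessarily homogeneous) of `V`,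
then such a cycle is zero in `CH_0(X) ⊗ ℚ` as soon as its image in `J` is a torsion point. For
`r = 1` this means that there are two points `P`, `P'` of `C(F)` such that `P - o`, `P' - o` and `0`
are distinct in `J(F) ⊗ ℚ`. Note that the points `P` and `Q` themselves need not be in `V`.

The reason is that the class of `{P, Q}` is a polynomial of degree two in `P + Q - 2 o`, whose
coefficients are a bilinear map `c` and linear maps `d`, `l` on `Pic(C) ⊗ ℚ`, with
`c(P - o, P - o) = d(P - o)`: every point of the curve gives a relation between the
coefficients.

The surface and its zero-cycles are treated by explicit definitions: `C` is given by its function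
field `K`, its points are the places of `K`, and zero-cycles rationally equivalent to zero are
spanned by the push-forwards of the divisors of functions on smooth projective curves.
-/

set_option autoImplicit false

namespace Pool.Agent.Results.MP_2eeeac_ag.SymmetricSquaresOfCurves

open FF Pool.Agent.Q70.CH Pool.Agent.Q70.KM Module

/-- The zero-cycles on `C^(2)` in the kernel of the Albanese map which are supported on the points
`{P, Q}` with `P + Q - 2 o` in `V` form a space of dimension at most the dimension of the space of
the polynomials of degree at most two on `V` vanishing at the elements `P - o` of `V`; if there is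
none but `0`, all these zero-cycles are zero in `CH_0(C^(2)) ⊗ ℚ`. -/
theorem result {k : Type} [Field k] [CharZero k] [IsAlgClosed k] {K : Type} [Field K]
    [Algebra k K] [IsFF k K] (o : Place k K)
    {V : Type} [AddCommGroup V] [Module ℚ V] [FiniteDimensional ℚ V] (ι : V →ₗ[ℚ] PicQ k K) :
    FiniteDimensional ℚ (kernelSpace o ι) ∧
      finrank ℚ (kernelSpace o ι) ≤ finrank ℚ (Quadrics o ι) ∧
      (Quadrics o ι = ⊥ → ∀ z, InKernel o ι z → clS z = 0) := by
  obtain ⟨h1, h2⟩ := mainS o ι
  refine ⟨h1, h2, fun hF z hz => ?_⟩
  have h3 : finrank ℚ (kernelSpace o ι) = 0 := by
    have h4 : finrank ℚ (Quadrics o ι) = 0 := by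
      rw [hF]
      exact finrank_bot ℚ _
    omega
  have h5 : kernelSpace o ι = ⊥ := Submodule.finrank_eq_zero.1 h3
  have h6 : clS z ∈ kernelSpace o ι := Submodule.subset_span ⟨z, hz, rfl⟩
  rw [h5, Submodule.mem_bot] at h6
  exact h6

end Pool.Agent.Results.MP_2eeeac_ag.SymmetricSquaresOfCurves
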